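import Pool.Agent.Run7.h1.GB.Main
import Pool.Agent.Run7.h1.SR.Defs

/-!
# Groups of type FP which are extensions by groups acting on trees with commensurable stabilizers

`C` is a class of groups with the closure properties `ClosedE C` (it contains `ℤ` and is closed under
subgroups, finite products, free products, overgroups of finite index and directed colimits, and it
satisfies the extension criterion with preimages of virtually cyclic subgroups) which contains the
metabelian groups, the free-by-cyclic groups and the groups `GL_m(ℚ)`, and such that the groups of type
FP in `C` are of type FF (`SerreFor`). All of this is known for the class of the groups that satisfy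
the Farrell–Jones conjecture with coefficients and with finite wreath products: groups of type FP are
torsion-free, for torsion-free groups in the class the reduced projective class group of `ℤG` vanishes,
and then groups of type FP are of type FF.

Let `N` be a normal subgroup of `G` with `G ⧸ N` in `C`, and let `N` act on a tree such that the
stabilizers of adjacent vertices are commensurable and have no nontrivial finite normal subgroups.
Suppose that a vertex stabilizer is commensurable with a torsion-free solvable subgroup `P` all of whose
subgroups are finitely generated (a torsion-free polycyclic group), and that `P` is commensurated by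
`G`. Then every subgroup of `G` which is of type FP is of type FF.

The group `G` does not act on the tree, and the conjugations by elements of `G` need not be compatible
with it in any way, except that `P` is commensurated. The theorem applies to the extensions of
generalized Baumslag–Solitar groups of any rank by Poincaré duality groups or duality groups, which
are of type FP.

The proof that `G` is in `C` is that of `MP_e40716_gt.CommensurableKernels`.
-/

set_option autoImplicit false

namespace Pool.Agent.Results.MP_d19827_al.CommensurableKernels

open Pool.Agent.Y110.FJ Pool.Agent.Run7.h1.SR

theorem result (C : ∀ (G : Type) [Group G], Prop) (hC : ClosedE C)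
    (hM : ∀ (G : Type) [Group G], derivedSeries G 2 = ⊥ → C G)
    (hF : ∀ (X : Type) (α : MulAut (FreeGroup X)),
      C (FreeGroup X ⋊[zpowersHom (MulAut (FreeGroup X)) α] Multiplicative ℤ))
    (hL : ∀ m : ℕ, C (Matrix.GeneralLinearGroup (Fin m) ℚ))
    (hS : ∀ (G : Type) [Group G], C G → SerreFor G)
    (G : Type) [Group G] (N : Subgroup G) [N.Normal] (hQ : C (G ⧸ N))
    (V : Type) [MulAction N V] (T : SimpleGraph V) (hT : T.IsTree)
    (hact : ∀ (g : N) (x y : V), T.Adj x y → T.Adj (g • x) (g • y))
    (hfin : ∀ x y : V, T.Adj x y →
      (MulAction.stabilizer N x).relIndex (MulAction.stabilizer N y) ≠ 0)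
    (hfn : ∀ (x : V) (F : Subgroup (MulAction.stabilizer N x)), F.Normal → Finite F → F = ⊥)
    (o : V) (P : Subgroup N) (hPi : P.relIndex (MulAction.stabilizer N o) ≠ 0)
    (hPs : Group.IsSolvable P) (hPm : ∀ H : Subgroup P, H.FG)
    (hPt : ∀ (x : P) (n : ℕ), 0 < n → x ^ n = 1 → x = 1)
    (hcsd : ∀ g : G, ((P.map N.subtype).map (MulAut.conj g).toMonoidHom).relIndex
      (P.map N.subtype) ≠ 0) (H : Subgroup G) : SerreFor H :=
  serre_sub hC hS (Pool.Agent.Run7.h1.GB.main hC hM hF hL N hQ T hT hact hfin hfn o P hPi hPs hPm
    hPt hcsd) H

end Pool.Agent.Results.MP_d19827_al.CommensurableKernels
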