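import Pool.Agent.Run7.h1.UG.Chain

/-!
# General linear groups of rings with an ascending chain of ideals

`C` is any class of groups with the closure properties `ClosedE C` (it contains `ℤ` and is closed under
subgroups, finite products, free products, overgroups of finite index and directed colimits, and it
satisfies the extension criterion with preimages of virtually cyclic subgroups) which contains the
metabelian groups. All this is known for the class of the groups that satisfy the Farrell–Jones
conjecture with coefficients and with finite wreath products.

Let `A` be a ring, not necessarily commutative, with a set `𝒮` of two-sided ideals which contains `0`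
and is closed under unions of chains. Suppose that for each proper ideal `J` in `𝒮` there is a larger
ideal `J'` in `𝒮` such that one of the following holds.

* The ideal `J' / J` of `A / J` has idempotent local units: each finite subset of it lies in
  `e (A / J) e` for an idempotent `e` in `J' / J`, which can be chosen such that the general linear groups
  `GL_k (e (A / J) e)`, `k = 0, 1, 2, …`, are in `C`. (`relGL e k` is the group of the invertible
  `k × k` matrices `x` over `A / J` with `x - 1` over `e (A / J) e`, which is isomorphic to it.)
* `J' J'` is contained in `J`.

Then all groups `GL_m (A)` are in `C`.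

For a finite chain `0 = J₀ < J₁ < ... < J_r = A` this is a statement on finitely many factors. For
instance `A` may be the algebra of one-sided inverses `K⟨x, y⟩ / (y x - 1)` over an algebraic extension
`K` of a finite field: here `J₁` is isomorphic to the algebra of finite matrices over `K` with rows and
columns indexed by the natural numbers and `A / J₁` is `K[t, t⁻¹]`. More generally `A` may be a Leavitt
path algebra over `K` of a finite graph whose cycles are disjoint: the factors of the usual series of
ideals are matrix algebras, of finite or infinite degree, over `K` and `K[t, t⁻¹]`. Transfinite chains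
occur for semiartinian von Neumann regular algebras.

Outline of the proof. Let `J < J'` be as in the first case, let `g` be in `GL_m (A / J)` and let `E` be a
finite set of elements `n` of `GL_m (A / J)` with `n - 1` over `J' / J`. Let `e` be an idempotent such that
`n - 1` is over `e (A / J) e` for `n` in `E`, and `f` one such that `e`, `g e` and `e g⁻¹` are over
`f (A / J) f`. Then `x = g e` and `y = e g⁻¹` satisfy `y x = e`, and `e` and `x y` are conjugate in the
two by two matrices over `f (A / J) f` by the matrix with entries `x, f - x y, f - e, y`. It realizes the
conjugation by `g` on `E` in `GL_{2m} (f (A / J) f)`. So the criterion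
`MP_490288_al.RealizationCriterion` applies to the extensions of the congruence subgroup modulo `J' / J`
by cyclic groups. In the second case this congruence subgroup is abelian. The theorem follows by
transfinite induction on the groups which are generated by a congruence subgroup of `GL_m (A)` and one
more element.
-/

set_option autoImplicit false

namespace Pool.Agent.Run7.h1.Kept.IdealChains

open Pool.Agent.Y110.FJ Pool.Agent.Run7.h1.UG

theorem result (C : ∀ (G : Type) [Group G], Prop) (hC : ClosedE C)
    (hmet : ∀ (S : Type) [Group S],
      (∀ a ∈ commutator S, ∀ b ∈ commutator S, a * b = b * a) → C S)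
    (A : Type) [Ring A] (𝒮 : Set (TwoSidedIdeal A)) (h0 : ⊥ ∈ 𝒮)
    (hun : ∀ c ⊆ 𝒮, c.Nonempty → IsChain (· ≤ ·) c → ∀ U : TwoSidedIdeal A,
      (∀ x, x ∈ U ↔ ∃ J ∈ c, x ∈ J) → U ∈ 𝒮)
    (h : ∀ J ∈ 𝒮, J ≠ ⊤ → ∃ J' ∈ 𝒮, J < J' ∧
      ((∀ F : Set A, F.Finite → (∀ x ∈ F, x ∈ J') → ∃ e ∈ J', e * e - e ∈ J ∧
          (∀ x ∈ F, e * x - x ∈ J ∧ x * e - x ∈ J) ∧
          ∀ k : ℕ, C (relGL (J.ringCon.mk' e) k)) ∨
        ∀ a ∈ J', ∀ b ∈ J', a * b ∈ J)) (m : ℕ) :
    C (Matrix (Fin m) (Fin m) A)ˣ :=
  chain hC hmet 𝒮 h0 hun (fun J hJ hne => by
    obtain ⟨J', hJ', hlt, h1 | h1⟩ := h J hJ hne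
    · exact ⟨J', hJ', hlt, Or.inl (good_of h1)⟩
    · exact ⟨J', hJ', hlt, Or.inr h1⟩) m

end Pool.Agent.Run7.h1.Kept.IdealChains
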