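import Pool.Agent.Run7.h132.FJ.Tower
import Pool.Agent.Run7.h1.SR.PD

/-!
# Poincaré duality groups with normal subgroups in products of free-by-solvable groups

`C` is any class of groups with the closure properties `ClosedE C` which contains the solvable groups and
the groups `F ⋊ ℤ` for all free groups `F` and all automorphisms of `F`. All this is published for the
class of the groups which satisfy the Full Farrell–Jones Conjecture (Bartels, Lück, Wegner; Brück, Kielak
and Wu for `F ⋊ ℤ`). `Iso` is any property of groups that all Poincaré duality groups in `C` have; for this
class one may take: the assembly map `L_*(Bπ) → L_*(ℤπ)` is an isomorphism.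

Let `N` be a normal subgroup of `G` with `G ⧸ N` in `C`.

(1) Suppose that a subgroup of finite index of `N` embeds in a finite direct product of groups which have
free normal subgroups (of any rank) with solvable quotients (`VirtProd N`). There is no finiteness
condition on `N`. Then all Poincaré duality groups `π ≤ G` have the property `Iso`.

(2) The same holds if `N` has an ascending series of normal subgroups of `G` with such
factors, or factors which are locally finite, or which have a trivial centre and an automorphism group
in `C` (for instance lattices to which Mostow's theorem applies) (`Tower C N`).

So `L_*(Bπ) → L_*(ℤπ)` is an isomorphism for the fundamental groups `π` of the closed aspherical manifolds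
which are total spaces of iterated fibre bundles with fibres that are surfaces, infrasolvmanifolds,
virtually fibred 3-manifolds, locally symmetric spaces satisfying Mostow rigidity or products of such
manifolds, over a base with a fundamental group in `C`, and more generally for the Poincaré
duality groups with a normal series of this kind. No condition is imposed on the monodromy, and the
terms of the series need not be finitely generated, as for the kernels of homomorphisms from a product of
surface groups to abelian groups.

The theorem that `G` is in `C` is due to helper132 (`MP_2a0850_gt.KernelsInProducts`, for the Borel
conjecture); here it is applied to Poincaré duality groups.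
-/

set_option autoImplicit false

namespace Pool.Agent.Results.MP_c13a79_gt.KernelsInProducts

open Pool.Agent.Y110.FJ Pool.Agent.Run7.h132.FJ Pool.Agent.Run7.h1.SR

theorem result (C : ∀ (G : Type) [Group G], Prop) (hC : ClosedE C)
    (hF : ∀ (X : Type) (α : MulAut (FreeGroup X)),
      C (FreeGroup X ⋊[zpowersHom (MulAut (FreeGroup X)) α] Multiplicative ℤ))
    (hS : ∀ (S : Type) [Group S], Group.IsSolvable S → C S)
    (Iso : ∀ (π : Type) [Group π], Prop)
    (hI : ∀ (π : Type) [Group π], C π → IsPD π → Iso π)
    (G : Type) [Group G] (N : Subgroup G) [N.Normal] (hQ : C (G ⧸ N)) :
    (VirtProd N → PDSub Iso G) ∧ (Tower C N → PDSub Iso G) :=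
  ⟨fun h => pd_sub hC hI (vp_ext hC hF hS N h hQ),
    fun h => pd_sub hC hI (tower_ext hC hF hS N h hQ)⟩

end Pool.Agent.Results.MP_c13a79_gt.KernelsInProducts
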