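import Pool.Agent.Run7.h1.AF.Main
import Pool.Agent.Run7.h1.SR.Defs

/-!
# Groups of type FP among the automorphism groups of free products of three groups

`C` is any class of groups with the closure properties `ClosedE C` (it contains `ℤ` and is closed under
subgroups, finite products, free products, overgroups of finite index and directed colimits, and it
satisfies the extension criterion with preimages of virtually cyclic subgroups) which contains the
free-by-cyclic groups, such that the groups of type FP in `C` are of type FF (`SerreFor`). All this is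
known for the class of the groups that satisfy the Farrell–Jones conjecture with coefficients and with
finite wreath products: groups of type FP are torsion-free, for torsion-free groups in the class the
reduced projective class group of `ℤG` vanishes, and then groups of type FP are of type FF.

Let `N = M₀ * M₁ * M₂` be a free product of three nontrivial groups, and let `𝒜 i` be a group of
automorphisms of `M i` which contains the inner ones, such that `𝒜 i` and the mapping tori
`M i ⋊_σ ℤ`, `σ ∈ 𝒜 i`, are in `C`.

(A) Let `H` be a group of automorphisms of `N` with a subgroup of finite index whose elements restrict on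
each factor `M i` to the product of an element of `𝒜 i` and of a conjugation of `N`. Then all subgroups of
type FP of the semidirect product `N ⋊ H` (for instance of `H`, and of the mapping tori of its elements)
and of the group `H / (H ∩ Inn N)` of outer automorphisms are of type FF.

(B) If `Aut (M i)` and all mapping tori of the factors are in `C`, then this is so for all
groups `H` of automorphisms which permute the conjugacy classes of the three factors. By Kurosh's
subgroup theorem `H = Aut N` is such a group if the factors are freely indecomposable and not infinite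
cyclic. If the factors and their automorphism groups are virtually of type FP, as for polycyclic groups and
for one-ended hyperbolic groups, then `Aut N` and `Out N` are virtually of type FP, so they have many
subgroups of type FP.

The proof that these groups are in `C` is that of `MP_59dd5b_al.ThreeFreeFactors`.
-/

set_option autoImplicit false

namespace Pool.Agent.Results.MP_d19827_al.ThreeFreeFactors

open Pool.Agent.Y110.FJ Pool.Agent.Run7.h1.AF Pool.Agent.Run7.h1.SR Monoid.CoprodI

/-- The free product of the groups `M 0`, `M 1`, `M 2`. -/
def FreeProd (M : Fin 3 → Type) [∀ i, Group (M i)] : Type := Monoid.CoprodI M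

noncomputable instance instGroupFreeProd (M : Fin 3 → Type) [∀ i, Group (M i)] :
    Group (FreeProd M) := (inferInstance : Group (Monoid.CoprodI M))

/-- The inclusion of a factor. -/
noncomputable def inc {M : Fin 3 → Type} [∀ i, Group (M i)] (i : Fin 3) : M i →* FreeProd M :=
  of (M := M) (i := i)

/-- The mapping torus `M ⋊_σ ℤ`. -/
abbrev Torus {M : Type} [Group M] (σ : MulAut M) : Type :=
  M ⋊[zpowersHom (MulAut M) σ] Multiplicative ℤ

/-- The groups `F ⋊ ℤ` with `F` free are in `C`. -/
def FreeByCyclic (C : ∀ (G : Type) [Group G], Prop) : Prop :=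
  ∀ (X : Type) (α : MulAut (FreeGroup X)), C (Torus α)

/-- The group `𝒜` of automorphisms of `M` contains the inner ones, and `𝒜` and the mapping tori
`M ⋊ ℤ` of its elements are in `C`. -/
structure Adm (C : ∀ (G : Type) [Group G], Prop) {M : Type} [Group M] (𝒜 : Subgroup (MulAut M)) :
    Prop where
  inner : Inn M ≤ 𝒜
  aut : C 𝒜
  tori : ∀ σ ∈ 𝒜, C (Torus σ)

variable {M : Fin 3 → Type} [∀ i, Group (M i)]

/-- The automorphism `φ` of the free product restricts on each factor `M i` to an element of `𝒜 i`
followed by a conjugation of the free product. -/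
def Pure (𝒜 : ∀ i, Subgroup (MulAut (M i))) (φ : MulAut (FreeProd M)) : Prop :=
  ∀ i, ∃ g : FreeProd M, ∃ ψ ∈ 𝒜 i, ∀ x : M i, φ (inc i x) = g * inc i (ψ x) * g⁻¹

/-- The automorphism `φ` permutes the conjugacy classes of the factors of the free product: it
maps each factor onto a conjugate of a factor. -/
def Permutes (φ : MulAut (FreeProd M)) : Prop :=
  ∀ i, ∃ (j : Fin 3) (g : FreeProd M), ∀ y : FreeProd M,
    y ∈ (inc i : M i →* FreeProd M).range ↔ g * φ y * g⁻¹ ∈ (inc j : M j →* FreeProd M).range

theorem le_PA {𝒜 : ∀ i, Subgroup (MulAut (M i))} {H₀ : Subgroup (MulAut (FreeProd M))}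
    (h : ∀ φ ∈ H₀, Pure 𝒜 φ) : H₀ ≤ PA 𝒜 := h

/-- Serre's question has a positive answer for all subgroups of the semidirect product of `N` and the
group `H` of automorphisms of `N` and for all subgroups of the group `H / (H ∩ Inn N)` of outer
automorphisms. -/
def SerreAutOut {N : Type} [Group N] (H : Subgroup (MulAut N)) : Prop :=
  (∀ U : Subgroup (N ⋊[H.subtype] H), SerreFor U) ∧
    ∀ U : Subgroup (H ⧸ (Inn N).subgroupOf H), SerreFor U

theorem result (C : ∀ (G : Type) [Group G], Prop) (hC : ClosedE C)
    (hF : FreeByCyclic C) (hFF : ∀ (G : Type) [Group G], C G → SerreFor G)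
    (M : Fin 3 → Type) [∀ i, Group (M i)] (hM : ∀ i, Nontrivial (M i)) :
    (∀ 𝒜 : ∀ i, Subgroup (MulAut (M i)), (∀ i, Adm C (𝒜 i)) →
      ∀ H H₀ : Subgroup (MulAut (FreeProd M)), H₀.relIndex H ≠ 0 → (∀ φ ∈ H₀, Pure 𝒜 φ) →
        SerreAutOut H) ∧
    ((∀ i, Adm C (⊤ : Subgroup (MulAut (M i)))) →
      ∀ H : Subgroup (MulAut (FreeProd M)), (∀ φ ∈ H, Permutes φ) → SerreAutOut H) := by
  refine ⟨fun 𝒜 hA H H₀ hr h0 => ?_, fun hA H hH => ?_⟩
  · have h := main 𝒜 hC hF hM (fun i x => (hA i).inner ⟨x, rfl⟩) (fun i => (hA i).aut)
      (fun i => (hA i).tori) H (fun h1 => hr (Nat.eq_zero_of_zero_dvd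
        (h1 ▸ Subgroup.relIndex_dvd_of_le_left H (le_PA h0))))
    exact ⟨serre_sub hC hFF h.1, serre_sub hC hFF h.2⟩
  · have h := main (fun i => ⊤) hC hF hM (fun i x => Subgroup.mem_top _) (fun i => (hA i).aut)
      (fun i => (hA i).tori) H (by rw [PA_top]; exact relIndex_perm' (M := M) H hH)
    exact ⟨serre_sub hC hFF h.1, serre_sub hC hFF h.2⟩

end Pool.Agent.Results.MP_d19827_al.ThreeFreeFactors
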