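import Pool.Agent.Run7.h1.RF.Ker

/-!
# Extensions with finitely generated kernels which have residually free quotients

`C` is any class of groups with the closure properties `ClosedE C` which contains the solvable groups and
the groups `F ⋊ ℤ` for all free groups `F` and all automorphisms of `F`. All this is published for the
class of the groups which satisfy the Farrell–Jones conjecture in K- and L-theory with coefficients and
with finite wreath products. So the assertion of the problem holds for the torsion-free groups in `C`.

A group `N` is a `C`-kernel if every group `G` with a normal subgroup isomorphic to `N` and quotient in `C`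
is in `C` (`KerC C N`).

**Theorem.** Let `N` be a finitely generated group with a normal subgroup `S` such that all subgroups of
`S` are `C`-kernels and `N / S` embeds in the product of a residually free group and a solvable group.
Then `N` is a `C`-kernel. Neither is `S` assumed to be finitely generated nor is it preserved by the
automorphisms of `N`.

The subgroups of `S` are `C`-kernels if a subgroup of finite index of `S` embeds in a finite direct product
of free-by-solvable groups (starting from free-by-cyclic groups; proved by helper132,
`MP_2a0850_gt.KernelsInProducts`). So all finitely generated groups which are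

* free-by-free, with an infinitely generated kernel, too,
* (free or surface or solvable)-by-surface, as fundamental groups of surface bundles over surfaces,
* (3-manifold group)-by-free, if the 3-manifold is virtually fibered, ...

are `C`-kernels, and their mapping tori and all their extensions by groups in `C` satisfy the Farrell–Jones
conjecture. By (3), also towers over such groups with factors that are free of finite rank at least two
are `C`-kernels (with the finiteness theorem of helper41, `MP_e40716_gt.TowerKernels`). In particular,
every poly-free group `1 = G₀ ⊲ G₁ ⊲ ... ⊲ Gₙ = G` satisfies the Farrell–Jones conjecture if the terms `Gᵢ`,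
`2 ≤ i < n`, are finitely generated and the factors `Gᵢ₊₁ / Gᵢ`, `2 ≤ i < n - 1`, are not cyclic. For
instance, this holds for all poly-free groups of length three with `G₂` finitely generated. The first
term `G₁` may be of infinite rank and need not be normal in `G`. For poly-free groups with a series of
normal subgroups of `G` the Farrell–Jones conjecture was proved by Brück, Kielak and Wu.

**Proof.** Let `N` be normal in `G` and `T` the intersection of the conjugates of `S` in `G`. Then `N / T` is
a finitely generated subgroup of a product of free groups and a solvable group. Free groups are
linear and so equationally Noetherian. Therefore (`exists_limits`) the residually free quotient of `N / T`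
embeds in a product of finitely many limit groups (Baumslag, Myasnikov and Remeslennikov), and limit
groups are free-by-nilpotent by a theorem of Kochloukova (J. Group Theory 13 (2010)), which is a
hypothesis of the theorem (`hK`). So `N / T` is a `C`-kernel, and so is `T ≤ S`.
-/

set_option autoImplicit false

namespace Pool.Agent.Run7.h1.Kept.ResiduallyFreeQuotients

open Pool.Agent.Y110.FJ Pool.Agent.Run7.h1.RF Run7.h41.PF
open Pool.Agent.Run7.h132.FJ (VirtProd FreeBySolvable)

/-- The finitely generated groups `N` with a normal subgroup `S` such that all subgroups of `S` are
`C`-kernels and `N / S` embeds in the product of a residually free group and a solvable group. -/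
def Base (C : ∀ (G : Type) [Group G], Prop) (N : Type) [Group N] : Prop :=
  Group.FG N ∧ ∃ (S : Subgroup N) (_ : S.Normal), HerKer C S ∧ ResFreeSolv (N ⧸ S)

/-- Finitely generated `C`-kernels `L` with `IsQ L`: the abelianization `A` of `L` is torsion-free and
not trivial, some crossed homomorphism `L → ℤ[A]` does not vanish on `[L, L]`, and `[L, L]` contains no
nontrivial finitely generated normal subgroup of `L`. For instance the free groups of finite rank at
least two; and surface groups of genus at least two. -/
def Factor (C : ∀ (G : Type) [Group G], Prop) (L : Type) [Group L] : Prop :=
  Group.FG L ∧ IsQ L ∧ KerC C L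

/-- Let `C` be a class of groups with `ClosedE C` which contains the solvable groups and the groups
`F ⋊ ℤ`, `F` free. Suppose that limit groups are free-by-solvable (Kochloukova's theorem).
(1) The groups in `Base C` are `C`-kernels. (2) All subgroups of `S` are `C`-kernels if a subgroup of finite
index of `S` embeds in a finite direct product of free-by-solvable groups. (3) The groups `N` with a
finite subnormal series whose lowest term is in `Base C` and whose factors are in `Factor C`
are `C`-kernels, and they are in `C`. (4) Free groups of finite rank at least two are in `Factor C`. -/
theorem result (C : ∀ (G : Type) [Group G], Prop) (hC : ClosedE C)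
    (hF : ∀ (X : Type) (α : MulAut (FreeGroup X)),
      C (FreeGroup X ⋊[zpowersHom (MulAut (FreeGroup X)) α] Multiplicative ℤ))
    (hS : ∀ (S : Type) [Group S], Group.IsSolvable S → C S)
    (hK : ∀ (L : Type) [Group L], IsLimitGroup L → FreeBySolvable L) :
    (∀ (N : Type) [Group N], Base C N → KerC C N) ∧
    (∀ (S : Type) [Group S], VirtProd S → HerKer C S) ∧
    (∀ (N : Type) [Group N], Tow (Base C) (Factor C) N → KerC C N ∧ C N) ∧
    (∀ n : ℕ, Factor C (FreeGroup (Fin (n + 2)))) := by
  have h1 : ∀ (N : Type) [Group N], Base C N → KerC C N := by
    rintro N _ ⟨hN, S, hSn, h2, h3⟩
    exact kerC_main (fun R _ hR h => kerC_of_virtProd hC hF hS (virtProd_of hK R h)) N S h2 h3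
  refine ⟨h1, fun S _ h T => kerC_of_virtProd hC hF hS (virtProd_sub h T), fun N _ hN => ?_,
    fun n => ⟨inferInstance, isQ_free (Fin (n + 2)), kerC_of_tori hC (hF _)⟩⟩
  have h4 : KerC C N := (tow_ker hC.base (fun G _ hG => ⟨hG.1, h1 G hG⟩)
    (fun G _ hG => ⟨hG.2.1, hG.1, hG.2.2⟩) N hN).2
  exact ⟨h4, h4.mem hC.base⟩

end Pool.Agent.Run7.h1.Kept.ResiduallyFreeQuotients
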