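import Pool.Agent.Run7.h1.AF.Main

/-!
# Automorphism groups of free products of three groups

`C` is any class of groups with the closure properties `ClosedE C` (it contains `ℤ` and is closed under
subgroups, finite products, free products, overgroups of finite index and directed colimits, and it
satisfies the extension criterion with preimages of virtually cyclic subgroups) which contains the
free-by-cyclic groups. All this is known for the class of the groups that satisfy the Farrell–Jones
conjecture with coefficients and with finite wreath products, also for the A-theoretic version.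

Let `N = M₀ * M₁ * M₂` be a free product of three nontrivial groups, and let `𝒜 i` be a group of
automorphisms of `M i` which contains the inner ones. `PA 𝒜` is the group of the automorphisms of `N`
which restrict on each factor `M i` to the product of an element of `𝒜 i` and of a conjugation of `N`
(with different conjugating elements for the different factors).

(A) If the groups `𝒜 i` and the mapping tori `M i ⋊_σ ℤ`, `σ ∈ 𝒜 i`, are in `C`, then for all groups `H`
of automorphisms of `N` with `(PA 𝒜 ∩ H : H)` finite the semidirect product `N ⋊ H` is in `C`, hence also
`H` and the mapping tori of its elements, and so is the group `H / (H ∩ Inn N)` of outer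
automorphisms. For `𝒜 i = Inn (M i)` this is about the group generated by the
partial conjugations, and only `M i` and `M i / Z(M i)` have to be in `C`. The pair `(N, PA 𝒜)` satisfies
the hypotheses on the pairs `(M i, 𝒜 i)` again, so the theorem can be iterated: it holds for free
products of any number of groups and for the automorphisms which preserve, up to conjugation, a
hierarchy of decompositions into two or three factors.

(B) If the groups `Aut (M i)` and all mapping tori of the factors are in `C`, then this is so for all
groups `H` of automorphisms which permute the conjugacy classes of the three factors. By Kurosh's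
subgroup theorem `H = Aut N` is such a group if the factors are freely indecomposable and not infinite
cyclic, so that `Aut N` and `Out N` are in `C`: for instance for torsion-free one-ended
hyperbolic factors, closed aspherical surface and 3-manifold groups, polycyclic groups, whenever their
automorphism groups are in `C`.

For free products of two groups `Out` is essentially the product of the automorphism groups of the
factors. For three factors it is not, and the Farrell–Jones conjecture for it seems not to be in the
literature, nor for `Out(F_n)`, `n ≥ 3`, or for free products of more than three groups.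

Outline of the proof. The free product `N` acts on the triples of elements of `N` by the moves `mv`; a
ping-pong argument (exactly one of the three vertices of the tree of the free product given by the triple
lies between the others) shows that the homomorphism `W : N → Aut N`, which maps `m` in `M i` to
the partial conjugation of `M (i+1)` by `m`, is injective also modulo `Inn N` and modulo the
automorphisms of the factors. Peak reduction with the total distance of the three vertices shows that
`PA 𝒜 = Inn N · W(N) · ∏ 𝒜 i`. So `PA 𝒜 / Inn N` is the semidirect product of `N` and `∏ 𝒜 i`, and `PA 𝒜`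
is an extension of this group by `N`, as is `N ⋊ PA 𝒜` of `PA 𝒜`; all these steps are extensions whose kernels are free products
the factors of which are permuted up to conjugation, which are in `C` by the starting theorem
`MP_490288_al.FreeProductExtensions`.
-/

set_option autoImplicit false

namespace Pool.Agent.Results.MP_59dd5b_al.ThreeFreeFactors

open Pool.Agent.Y110.FJ Pool.Agent.Run7.h1.AF Monoid.CoprodI

/-- The free product of the groups `M 0`, `M 1`, `M 2`. -/
def FreeProd (M : Fin 3 → Type) [∀ i, Group (M i)] : Type := Monoid.CoprodI M

noncomputable instance instGroupFreeProd (M : Fin 3 → Type) [∀ i, Group (M i)] :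
    Group (FreeProd M) := (inferInstance : Group (Monoid.CoprodI M))

/-- The inclusion of a factor. -/
noncomputable def inc {M : Fin 3 → Type} [∀ i, Group (M i)] (i : Fin 3) : M i →* FreeProd M :=
  of (M := M) (i := i)

/-- The mapping torus `M ⋊_σ ℤ`. -/
abbrev Torus {M : Type} [Group M] (σ : MulAut M) : Type :=
  M ⋊[zpowersHom (MulAut M) σ] Multiplicative ℤ

/-- The groups `F ⋊ ℤ` with `F` free are in `C`. -/
def FreeByCyclic (C : ∀ (G : Type) [Group G], Prop) : Prop :=
  ∀ (X : Type) (α : MulAut (FreeGroup X)), C (Torus α)

/-- The group `𝒜` of automorphisms of `M` contains the inner ones, and `𝒜` and the mapping tori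
`M ⋊ ℤ` of its elements are in `C`. -/
structure Adm (C : ∀ (G : Type) [Group G], Prop) {M : Type} [Group M] (𝒜 : Subgroup (MulAut M)) :
    Prop where
  inner : Inn M ≤ 𝒜
  aut : C 𝒜
  tori : ∀ σ ∈ 𝒜, C (Torus σ)

/-- The semidirect product of `N` and the group `H` of automorphisms of `N`, which contains `N` and `H`,
and the group `H / (H ∩ Inn N)` of outer automorphisms are in `C`. -/
def AutOut (C : ∀ (G : Type) [Group G], Prop) {N : Type} [Group N] (H : Subgroup (MulAut N)) : Prop :=
  C (N ⋊[H.subtype] H) ∧ C (H ⧸ (Inn N).subgroupOf H)

variable {M : Fin 3 → Type} [∀ i, Group (M i)]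

/-- The automorphism `φ` of the free product restricts on each factor `M i` to an element of `𝒜 i`
followed by a conjugation of the free product. -/
def Pure (𝒜 : ∀ i, Subgroup (MulAut (M i))) (φ : MulAut (FreeProd M)) : Prop :=
  ∀ i, ∃ g : FreeProd M, ∃ ψ ∈ 𝒜 i, ∀ x : M i, φ (inc i x) = g * inc i (ψ x) * g⁻¹

/-- The automorphism `φ` permutes the conjugacy classes of the factors of the free product: it
maps each factor onto a conjugate of a factor. -/
def Permutes (φ : MulAut (FreeProd M)) : Prop :=
  ∀ i, ∃ (j : Fin 3) (g : FreeProd M), ∀ y : FreeProd M,
    y ∈ (inc i : M i →* FreeProd M).range ↔ g * φ y * g⁻¹ ∈ (inc j : M j →* FreeProd M).range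

theorem le_PA {𝒜 : ∀ i, Subgroup (MulAut (M i))} {H₀ : Subgroup (MulAut (FreeProd M))}
    (h : ∀ φ ∈ H₀, Pure 𝒜 φ) : H₀ ≤ PA 𝒜 := h

theorem result (C : ∀ (G : Type) [Group G], Prop) (hC : ClosedE C)
    (hF : FreeByCyclic C)
    (M : Fin 3 → Type) [∀ i, Group (M i)] (hM : ∀ i, Nontrivial (M i)) :
    (∀ 𝒜 : ∀ i, Subgroup (MulAut (M i)), (∀ i, Adm C (𝒜 i)) →
      ∀ H H₀ : Subgroup (MulAut (FreeProd M)), H₀.relIndex H ≠ 0 → (∀ φ ∈ H₀, Pure 𝒜 φ) →
        AutOut C H) ∧
    ((∀ i, Adm C (⊤ : Subgroup (MulAut (M i)))) →
      ∀ H : Subgroup (MulAut (FreeProd M)), (∀ φ ∈ H, Permutes φ) → AutOut C H) := by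
  refine ⟨fun 𝒜 hA H H₀ hr h0 => ?_, fun hA H hH => ?_⟩
  · exact main 𝒜 hC hF hM (fun i x => (hA i).inner ⟨x, rfl⟩) (fun i => (hA i).aut)
      (fun i => (hA i).tori) H (fun h1 => hr (Nat.eq_zero_of_zero_dvd
        (h1 ▸ Subgroup.relIndex_dvd_of_le_left H (le_PA h0))))
  · refine main (fun i => ⊤) hC hF hM (fun i x => Subgroup.mem_top _) (fun i => (hA i).aut)
      (fun i => (hA i).tori) H ?_
    rw [PA_top]
    exact relIndex_perm' (M := M) H hH

end Pool.Agent.Results.MP_59dd5b_al.ThreeFreeFactors
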