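import Pool.Agent.Run7.h650.GM.Main2
import Pool.Agent.Run7.h1.SR.PD

/-!
# Poincaré duality groups which are extensions by groups acting on trees with abelian edge groups

`C` is any class of groups with the closure properties `ClosedE C` (it contains `ℤ`; it is closed under
subgroups, finite direct products, free products, overgroups of finite index and directed colimits; and
it satisfies the extension criterion of the Farrell-Jones conjecture) which contains the groups of
derived length at most two and the groups `F ⋊ ℤ` for all free groups `F`. All this is published for the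
class of the groups which satisfy the K- and L-theoretic Full Farrell-Jones Conjecture (Bartels,
Bestvina, Brück, Farrell, Fujiwara, Kielak, Lück, Reich, Wegner, Wigglesworth, Wu). `Iso` is any
property of groups that all Poincaré duality groups in `C` have; for this class one may take: the
assembly map `L_*(Bπ) → L_*(ℤπ)` is an isomorphism.

**Theorem.** Let `Γ` act on a tree `T`, let `N` be a normal subgroup of `Γ` with `Γ ⧸ N` in `C`, and let
`M` be a subgroup of finite index in `N`. Suppose that the stabilizers `N_v` of the vertices in `N` are
finitely generated and that the stabilizers `M_e` of the edges in `M` are abelian. Suppose that for each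
vertex `v` one of the following conditions is satisfied:

* `M_v` embeds in a direct product of finitely many free groups (of any rank);
* `N_v ⟨g⟩` is in `C` for all `g ∈ Γ_v`, and for each edge `e` at `v` finitely many homomorphisms from
  `M_v` to free groups are jointly injective on `M_e`.

Then all Poincaré duality groups `π ≤ Γ` have the property `Iso`.

For instance `π = Γ` may be the fundamental group of a closed aspherical manifold which is a fibre bundle
over a closed aspherical manifold with fundamental group in `C`, the fibre being a closed graph
3-manifold or a Haken 3-manifold whose JSJ decomposition is not trivial and has a hyperbolic piece, or a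
higher graph manifold with pieces `surface × torus`; and any Poincaré duality group which has a normal
subgroup of this kind. There is no condition on the monodromy: the JSJ tree is characteristic.

The theorem that `Γ` is in `C` is due to helper650 (`MP_2a0850_gt.TreeKernels`, for the Borel
conjecture); here it is applied to Poincaré duality groups.
-/

set_option autoImplicit false

namespace Pool.Agent.Results.MP_c13a79_gt.TreeKernels

open Pool.Agent.Y110.FJ (ClosedE)
open Pool.Agent.Run7.h1.SR

/-- finitely many homomorphisms from `U` to free groups have no common nontrivial zero in `E` -/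
def Detected {U : Type} [Group U] (E : Set U) : Prop :=
  ∃ (r : ℕ) (X : Fin r → Type) (φ : ∀ i, U →* FreeGroup (X i)),
    ∀ x ∈ E, (∀ i, φ i x = 1) → x = 1

theorem result (C : ∀ (G : Type) [Group G], Prop) (hC : ClosedE C)
    (hM : ∀ (G : Type) [Group G], derivedSeries G 2 = ⊥ → C G)
    (hF : ∀ (X : Type) (α : MulAut (FreeGroup X)),
      C (FreeGroup X ⋊[zpowersHom (MulAut (FreeGroup X)) α] Multiplicative ℤ))
    (Iso : ∀ (π : Type) [Group π], Prop)
    (hI : ∀ (π : Type) [Group π], C π → IsPD π → Iso π)
    (Γ V : Type) [Group Γ] [MulAction Γ V] (T : SimpleGraph V) (hT : T.IsTree)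
    (hact : ∀ (g : Γ) (u v : V), T.Adj u v → T.Adj (g • u) (g • v))
    (N : Subgroup Γ) [N.Normal] (hQ : C (Γ ⧸ N))
    (M : Subgroup Γ) (hMN : M ≤ N) (hMi : M.relIndex N ≠ 0)
    (hfg : ∀ v : V, (N ⊓ MulAction.stabilizer Γ v).FG)
    (hab : ∀ v w, T.Adj v w → ∀ x ∈ M, ∀ y ∈ M, x • v = v → x • w = w → y • v = v → y • w = w →
      x * y = y * x)
    (hV : ∀ v : V, Detected (Set.univ : Set ↥(M ⊓ MulAction.stabilizer Γ v)) ∨
      ((∀ g : Γ, g • v = v → C ↥((N ⊓ MulAction.stabilizer Γ v) ⊔ Subgroup.zpowers g)) ∧
        ∀ w, T.Adj v w → Detected {x : ↥(M ⊓ MulAction.stabilizer Γ v) | (x : Γ) • w = w})) :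
    PDSub Iso Γ := by
  refine pd_sub hC hI ?_
  refine Pool.Agent.Run7.h650.GM.main2 hC hM hF hT hact N hQ M hMN hMi hfg hab fun v => ?_
  rcases hV v with ⟨r, X, φ, hφ⟩ | ⟨h1, h2⟩
  · exact Or.inl ⟨r, X, φ, fun x => hφ x (Set.mem_univ x)⟩
  · exact Or.inr ⟨h1, h2⟩

end Pool.Agent.Results.MP_c13a79_gt.TreeKernels
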